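import Mathlib
import Pool.Agent.FCE.OptDefs
import Pool.Agent.FCE.OptMain
import Pool.Agent.OPG.EvenMain

/-!
Problem MP_fce80c_co, Q1, case `t = 4`: there are optimally jumbled `K_4`-free graphs of density
at least `c n ^ (-1 / 4)`; they attain the exponent `5 / 2`.
-/

namespace Pool.Agent.Results.MP_fce80c_co.FourCliques

/-- There are constants `C, c > 0` and, for infinitely many `n`, a `K_4`-free `(p, β)`-jumbled
graph on `n` vertices with `p = p(n) → 0`, `p ≥ c n ^ (-1 / 4)`, `β ≤ C √(p n)` and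
`β ≤ C p ^ (5 / 2) n`. -/
theorem result : Pool.Agent.FCE.OptimallyAttained 4 (5 / 2) := by
  obtain ⟨C, hC, c, hc, h⟩ := Pool.Agent.OPG.even_main_two 0
  have h1 := Pool.Agent.FCE.optimally_of 4 (by norm_num) C c hC hc h
  have h2 : (((4 : ℕ) : ℝ) + 1) / 2 = 5 / 2 := by norm_num
  rwa [h2] at h1

end Pool.Agent.Results.MP_fce80c_co.FourCliques
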